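import Pool.Agent.H628R3.PG.Order
import Pool.Agent.H628R3.PG.ACC
import Pool.Agent.H628R3.PG.BAD
import Pool.Agent.H628R3.PG.COMB
import Pool.Agent.H628R3.PG.GRP
import Pool.Agent.H628R3.PG.MACH
import Pool.Agent.H628R3.PG.MONO
import Pool.Agent.H628R3.PG.PAR
import Pool.Agent.H628R3.PG.SEED
import Pool.Agent.H628R3.PG.SEL
import Pool.Agent.H628R3.PG.TAIL

/-!
# Fooling increasing read-once branching programs is fooling all read-once branching programs

A generator with an error below `1/2` against the increasing functions computed by ordered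
read-once branching programs of small polynomial width gives, by XOR of a constant number of
independently chosen blocks of its outputs, a generator with arbitrarily small error against all
ordered read-once branching programs of polynomial width.
-/

namespace Pool.Agent.Results.MP_10e1ea_lc.AllFromIncreasing

open Pool.Agent.H529R2.MF Pool.Agent.H628R3.PG

/-- For all `0 ≤ ε < 1/2` and `η > 0` there is a number `t` such that for all `γ < 1`, `δ > 0`
and `c` there is `A` with the following properties.

(1) If `G_N` has seeds of length `O(log N)`, then the new generator has seeds of length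
`O(log n)`.

(2) If, for all large `N`, the generator `G_N : {0,1}^{r(N)} → {0,1}^N` has seed length at most
`N^γ` and error at most `ε` against all increasing functions computed by ordered read-once
branching programs of length `N` and width at most `N^δ`, then, for all large `n`, the new
generator has error at most `η` against all ordered read-once branching programs of length `n`
and width at most `n^c`.

The new generator is the bitwise XOR of `t` independent uniformly chosen blocks of length `n` of
outputs of `G_N`, where `N = n 2^(A ⌈log₂ n⌉)`. -/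
theorem result : ∀ ε η : ℝ, 0 ≤ ε → ε < 1 / 2 → 0 < η → ∃ t : ℕ,
    ∀ γ δ : ℝ, γ < 1 → 0 < δ → ∀ c : ℕ, ∃ A : ℕ,
    (∀ C : ℕ, ∃ C' : ℕ, ∀ r : ℕ → ℕ, (∃ N₀, ∀ N ≥ N₀, r N ≤ C * Nat.clog 2 N) →
      ∃ n₀, ∀ n ≥ n₀, t * (r (len A n) + A * Nat.clog 2 n) ≤ C' * Nat.clog 2 n) ∧
    ∀ (r : ℕ → ℕ) (G : ∀ N, (Fin (r N) → Bool) → Fin N → Bool), FoolsInc ε γ δ r G →
      ∃ n₀, ∀ n ≥ n₀, ∀ w ≤ n ^ c, ∀ P : ROBP w n,
        |frac (fun u => P.eval (xorGen A t n r G u)) - acc P.eval| ≤ η :=
  main_order p_BAD p_COMB p_PAR p_MACH p_MONO p_ACC p_SEL p_GRP p_TAIL p_SEED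

end Pool.Agent.Results.MP_10e1ea_lc.AllFromIncreasing
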