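import Pool.Agent.H529R2.MF.RobpMain

/-!
# Fooling read-once branching programs that compute increasing functions

The constant strings `0^N`, `1^N` have advantage at most `1/2 - 2^{-N}` against all increasing
functions.  Generators whose advantage against the increasing functions computed by ordered
read-once branching programs of length `N` and width `N^δ` is at most `1/2 - 2^{-N^γ}` (for
instance `0.49`) give hitting sets for all ordered read-once branching programs of polynomial
width: the blocks of their outputs.
-/

namespace Pool.Agent.Results.MP_10e1ea_lc.IncreasingPrograms

open Pool.Agent.H529R2.MF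

/-- (1) The generator with seeds of one bit and outputs `0^N`, `1^N` has advantage at most
`1/2 - 2^{-N}` against every increasing function.

(2) For all `0 < γ < δ ≤ 1` and every `c` there is `A` such that for all maps
`G_N : {0,1}^{r(N)} → {0,1}^N`: if for all large `N` the map `G_N` has advantage at most
`1/2 - 2^{-N^γ}` against all ordered read-once branching programs of length `N` and width at most
`N^δ` which compute increasing functions, then, for all large `n`, every ordered read-once
branching program of length `n` and width at most `n^c` which accepts at least half of its inputs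
accepts a block of length `n` of an output of `G_N`, `N = n^A`. -/
theorem result :
    (∀ N : ℕ, 1 ≤ N → ∀ f : (Fin N → Bool) → Bool, Monotone f →
      |acc (fun s : Fin 1 → Bool => f (fun _ => s 0)) - acc f| ≤
        1 / 2 - (2 : ℝ) ^ (-(N : ℝ))) ∧
    (∀ γ δ : ℝ, 0 < γ → γ < δ → δ ≤ 1 → ∀ c : ℕ, ∃ A : ℕ, ∀ (r : ℕ → ℕ)
      (G : ∀ N, (Fin (r N) → Bool) → Fin N → Bool),
      FoolsIncreasing γ δ r G → BlocksHit A c r G) :=
  ⟨fun _ hN f hf => constants_fool hN f hf,
    fun _ _ h0 h1 h2 c => blocksHit_of_foolsIncreasing h0 h1 h2 c⟩

end Pool.Agent.Results.MP_10e1ea_lc.IncreasingPrograms
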